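import Mathlib
import Pool.Agent.Run7.h334.KSR.Dense

/-!
MP_9410e4_ag, Q1: potential density of varieties with a group of automorphisms of maximal
dynamical rank.
-/

set_option autoImplicit false

open Filter Topology

namespace Pool.Agent.Results.MP_9410e4_ag.MaximalRankDensity

open Pool.Agent.Q8.KS Run7.h334.KSR

/-- Let `V` be a projective variety of dimension `m = dimPred + 1 ≥ 2` over a number field `K` with
absolute Galois group `G`, and let `ℤ^(m-1)` act on `V` by automorphisms `f v` over `K` with first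
dynamical degree `d₁(f v) > 1` for all `v ≠ 0`. There is a proper closed invariant subset `Z` of `V`
such that

* every orbit of the group outside of `Z` is finite or Zariski dense;
* for every `e` and all but finitely many of the points `x` outside of `Z` with `[K(x) : K] ≤ e`
  the orbit of `x` and hence `V(K(x))` are Zariski dense in `V`;
* there are infinitely many points `x` outside of `Z` with `[K(x) : K] ≤ e` for some `e`, so that
  `V` is potentially dense. -/
theorem result {G : Type} [Group G] (V : ProjVariety G) (T : Subvarieties V)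
    (hm : 0 < V.dimPred) (Φ : LatticeAction V V.dimPred) (hΦ : ∀ v, PreservesSub T (Φ.f v))
    (A : V.Pic) (hA : V.IsAmple A)
    (hpos : ∀ v : Fin V.dimPred → ℤ, v ≠ 0 → ∃ d, 1 < d ∧ IsDynamicalDegree (Φ.f v) A d) :
    ∃ Z : Set V.Pt, IsClosed Z ∧ Z ≠ Set.univ ∧ (∀ v x, (Φ.f v).pt x ∈ Z ↔ x ∈ Z) ∧
      (∀ x, x ∉ Z → (Set.range fun v => (Φ.f v).pt x).Finite ∨
        Dense (Set.range fun v => (Φ.f v).pt x)) ∧
      (∀ e : ℕ, {x | x ∉ Z ∧ (MulAction.orbit G x).ncard ≤ e ∧
        ¬ (Dense (Set.range fun v => (Φ.f v).pt x) ∧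
          Dense (ratPts V (MulAction.stabilizer G x)))}.Finite) ∧
      (∃ e : ℕ, {x | x ∉ Z ∧ (MulAction.orbit G x).ncard ≤ e}.Infinite) ∧
      ∃ H : Subgroup G, H.FiniteIndex ∧ Dense (ratPts V H) := by
  obtain ⟨Z, h1, h2, h3, h4, h5, -, h6⟩ := density hm T Φ hΦ hA hpos
  refine ⟨Z, h1, h2, h3, h4, fun e => (h5 e).subset ?_, ?_, h6⟩
  · rintro x ⟨hx, hxe, hx2⟩
    refine ⟨hx, hxe, ?_⟩
    rcases h4 x hx with h | h
    · exact h
    · exfalso
      refine hx2 ⟨h, h.mono ?_⟩
      rintro _ ⟨v, rfl⟩ g hg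
      show g • (Φ.f v).pt x = (Φ.f v).pt x
      rw [← (Φ.f v).pt_smul, show g • x = x from hg]
  · obtain ⟨e, he⟩ := T.points
    exact ⟨e, he Z h1 h2⟩

end Pool.Agent.Results.MP_9410e4_ag.MaximalRankDensity
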